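import Mathlib

/-!
# Sign cocycles with values in a regular representation, pushed to a field of characteristic two

`P` is a group with a homomorphism onto a finite abelian group `Γ`, `ε` a cocycle of `P` with values
in the functions from `Γ` to `ℤ/2`, and `χ` an injective homomorphism from `Γ` to the units of a field
of characteristic two. The image `f` of `ε` is a cocycle with values in the additive group `V`
generated by the values of `χ`, on which `P` acts through multiplication by values of `χ`. If some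
element flips exactly one sign, then the affine action of `P` on `V` is transitive, every element
outside of the kernel has exactly one fixed point, and the elements which flip exactly one sign have
none.
-/

set_option autoImplicit false
set_option linter.unusedSectionVars false

namespace Pool.Agent.R477.TC

variable {P Γ : Type} [Group P] [CommGroup Γ] [Fintype Γ]

/-- a cocycle with values in the functions from `Γ` to `ℤ/2` -/
structure Sgn (ψ : P →* Γ) where
  ε : P → Γ → ZMod 2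
  mul : ∀ g h σ, ε (g * h) σ = ε g σ + ε h ((ψ g)⁻¹ * σ)

namespace Sgn

variable {ψ : P →* Γ} (S : Sgn ψ) {B : Type} [Field B] [Algebra (ZMod 2) B] (χ : Γ →* Bˣ)

/-- the image of the cocycle -/
noncomputable def f (g : P) : B := ∑ σ, S.ε g σ • ((χ σ : Bˣ) : B)

lemma f_mul (g h : P) : S.f χ (g * h) = S.f χ g + ((χ (ψ g) : Bˣ) : B) * S.f χ h := by
  unfold f
  rw [Finset.mul_sum]
  have h1 : ∑ σ, ((χ (ψ g) : Bˣ) : B) * (S.ε h σ • ((χ σ : Bˣ) : B)) =
      ∑ σ, S.ε h ((ψ g)⁻¹ * σ) • ((χ σ : Bˣ) : B) := by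
    refine Fintype.sum_equiv (Equiv.mulLeft (ψ g)) _ _ fun σ => ?_
    simp [map_mul, Units.val_mul]
  rw [h1, ← Finset.sum_add_distrib]
  refine Finset.sum_congr rfl fun σ _ => ?_
  rw [S.mul, add_smul]

lemma f_one : S.f χ 1 = 0 := by
  have h := S.f_mul χ 1 1
  simp at h
  exact h

lemma f_inv (g : P) : ((χ (ψ g) : Bˣ) : B) * S.f χ g⁻¹ = - S.f χ g := by
  have h := S.f_mul χ g g⁻¹
  rw [mul_inv_cancel, f_one] at h
  linear_combination -h

/-- the stabiliser of zero -/
noncomputable def H : Subgroup P where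
  carrier := {g | S.f χ g = 0}
  one_mem' := S.f_one χ
  mul_mem' := by
    intro a b ha hb
    change S.f χ a = 0 at ha
    change S.f χ b = 0 at hb
    change S.f χ (a * b) = 0
    rw [S.f_mul, ha, hb, mul_zero, add_zero]
  inv_mem' := by
    intro a ha
    change S.f χ a = 0 at ha
    change S.f χ a⁻¹ = 0
    have h := S.f_inv χ a
    rw [ha, neg_zero] at h
    exact (mul_eq_zero.1 h).resolve_left (Units.ne_zero _)

lemma mem_H {g : P} : g ∈ S.H χ ↔ S.f χ g = 0 := Iff.rfl

lemma f_eq_iff (g h : P) : S.f χ g = S.f χ h ↔ g⁻¹ * h ∈ S.H χ := by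
  have h1 := S.f_mul χ g (g⁻¹ * h)
  rw [mul_inv_cancel_left] at h1
  rw [mem_H]
  constructor
  · intro he
    rw [← he] at h1
    have h2 : ((χ (ψ g) : Bˣ) : B) * S.f χ (g⁻¹ * h) = 0 := by linear_combination -h1
    exact (mul_eq_zero.1 h2).resolve_left (Units.ne_zero _)
  · intro h0
    rw [h0] at h1
    linear_combination -h1

/-- the additive group generated by the values of `χ` -/
def V : AddSubgroup B := AddSubgroup.closure (Set.range fun σ => ((χ σ : Bˣ) : B))

lemma f_mem_V (g : P) : S.f χ g ∈ V χ := by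
  refine AddSubgroup.sum_mem _ fun σ _ => ?_
  have h1 : ((χ σ : Bˣ) : B) ∈ V χ := AddSubgroup.subset_closure ⟨σ, rfl⟩
  have h2 : S.ε g σ = 0 ∨ S.ε g σ = 1 := by
    generalize S.ε g σ = z
    revert z; decide
  rcases h2 with h2 | h2
  · rw [h2, zero_smul]; exact zero_mem _
  · rw [h2, one_smul]; exact h1

lemma mul_mem_V (τ : Γ) {v : B} (hv : v ∈ V χ) : ((χ τ : Bˣ) : B) * v ∈ V χ := by
  refine AddSubgroup.closure_induction (p := fun x _ => ((χ τ : Bˣ) : B) * x ∈ V χ)
    ?_ ?_ ?_ ?_ hv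
  · rintro x ⟨σ, rfl⟩
    change ((χ τ : Bˣ) : B) * ((χ σ : Bˣ) : B) ∈ V χ
    rw [← Units.val_mul, ← map_mul]
    exact AddSubgroup.subset_closure ⟨τ * σ, rfl⟩
  · rw [mul_zero]; exact zero_mem _
  · intro x y _ _ hx hy
    rw [mul_add]; exact add_mem hx hy
  · intro x _ hx
    rw [mul_neg]; exact neg_mem hx

lemma two_zero (x : B) : x + x = 0 := by
  have h : (1 : ZMod 2) + 1 = 0 := by decide
  have h2 : ((1 : ZMod 2) + 1) • x = 0 := by rw [h, zero_smul]
  rwa [add_smul, one_smul] at h2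

instance finite_V : Finite (V χ) := by
  classical
  have h1 : ∀ v ∈ V χ, ∃ e : Γ → ZMod 2, v = ∑ σ, e σ • ((χ σ : Bˣ) : B) := by
    intro v hv
    refine AddSubgroup.closure_induction
      (p := fun x _ => ∃ e : Γ → ZMod 2, x = ∑ σ, e σ • ((χ σ : Bˣ) : B)) ?_ ?_ ?_ ?_ hv
    · rintro x ⟨σ, rfl⟩
      refine ⟨Pi.single σ 1, ?_⟩
      rw [Finset.sum_eq_single σ]
      · simp
      · intro b _ hb
        rw [Pi.single_eq_of_ne hb, zero_smul]
      · simp
    · exact ⟨0, by simp⟩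
    · rintro x y _ _ ⟨e, he⟩ ⟨e', he'⟩
      refine ⟨e + e', ?_⟩
      rw [he, he', ← Finset.sum_add_distrib]
      exact Finset.sum_congr rfl fun σ _ => by rw [Pi.add_apply, add_smul]
    · rintro x _ ⟨e, he⟩
      refine ⟨-e, ?_⟩
      rw [he, ← Finset.sum_neg_distrib]
      exact Finset.sum_congr rfl fun σ _ => by rw [Pi.neg_apply, neg_smul]
  have h2 : Set.Finite (Set.range fun e : Γ → ZMod 2 => ∑ σ, e σ • ((χ σ : Bˣ) : B)) :=
    Set.finite_range _
  refine Set.Finite.subset h2 ?_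
  intro v hv
  obtain ⟨e, he⟩ := h1 v hv
  exact ⟨e, he.symm⟩

lemma card_V : ∃ k : ℕ, Nat.card (V χ) = 2 ^ k := by
  have hp : IsPGroup 2 (Multiplicative (V χ)) := by
    intro g
    refine ⟨1, ?_⟩
    rw [pow_one, pow_two]
    apply Multiplicative.toAdd.injective
    apply Subtype.ext
    exact two_zero _
  have : Fact (Nat.Prime 2) := ⟨Nat.prime_two⟩
  obtain ⟨k, hk⟩ := IsPGroup.iff_card.1 hp
  exact ⟨k, by rw [← hk]; rfl⟩

/-- flips of one sign are not in the stabiliser -/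
lemma flip_not_mem {c : P} {σ : Γ} (hc0 : S.ε c σ = 1) (hc : ∀ τ, τ ≠ σ → S.ε c τ = 0) :
    c ∉ S.H χ := by
  classical
  rw [mem_H]
  have h : S.f χ c = ((χ σ : Bˣ) : B) := by
    unfold f
    rw [Finset.sum_eq_single σ]
    · rw [hc0, one_smul]
    · intro b _ hb
      rw [hc b hb, zero_smul]
    · simp
  rw [h]
  exact Units.ne_zero _

variable (hψ : Function.Surjective ψ) {c : P} {σ₀ : Γ} (hc1 : ψ c = 1)
  (hc0 : S.ε c σ₀ = 1) (hc : ∀ τ, τ ≠ σ₀ → S.ε c τ = 0)

include hψ hc1 hc0 hc in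
lemma exists_flip (σ : Γ) : ∃ d : P, ψ d = 1 ∧ S.f χ d = ((χ σ : Bˣ) : B) := by
  classical
  obtain ⟨g, hg⟩ := hψ (σ * σ₀⁻¹)
  have h0 : S.f χ c = ((χ σ₀ : Bˣ) : B) := by
    unfold f
    rw [Finset.sum_eq_single σ₀]
    · rw [hc0, one_smul]
    · intro b _ hb
      rw [hc b hb, zero_smul]
    · simp
  refine ⟨g * c * g⁻¹, by simp [hc1], ?_⟩
  rw [S.f_mul, S.f_mul, map_mul, hc1, mul_one, f_inv, h0, hg]
  rw [map_mul, Units.val_mul]
  have h1 : ((χ σ : Bˣ) : B) = ((χ σ : Bˣ) : B) * ((χ σ₀⁻¹ : Bˣ) : B) * ((χ σ₀ : Bˣ) : B) := by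
    rw [mul_assoc, ← Units.val_mul, ← map_mul, inv_mul_cancel, map_one, Units.val_one, mul_one]
  linear_combination -h1

include hψ hc1 hc0 hc in
lemma f_surj {v : B} (hv : v ∈ V χ) : ∃ d : P, ψ d = 1 ∧ S.f χ d = v := by
  refine AddSubgroup.closure_induction (p := fun x _ => ∃ d : P, ψ d = 1 ∧ S.f χ d = x)
    ?_ ?_ ?_ ?_ hv
  · rintro x ⟨σ, rfl⟩
    exact S.exists_flip χ hψ hc1 hc0 hc σ
  · exact ⟨1, map_one _, S.f_one χ⟩
  · rintro x y _ _ ⟨d, h1, h2⟩ ⟨d', h1', h2'⟩
    refine ⟨d * d', by rw [map_mul, h1, h1', mul_one], ?_⟩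
    rw [S.f_mul, h1, h2, h2', map_one, Units.val_one, one_mul]
  · rintro x _ ⟨d, h1, h2⟩
    refine ⟨d, h1, ?_⟩
    rw [h2, eq_neg_iff_add_eq_zero]
    exact two_zero x

/-- cosets of the stabiliser and elements of `V` -/
noncomputable def toV : P ⧸ S.H χ → V χ := fun x => ⟨S.f χ x.out, S.f_mem_V χ _⟩

lemma toV_mk (g : P) : S.toV χ (QuotientGroup.mk g : P ⧸ S.H χ) = ⟨S.f χ g, S.f_mem_V χ _⟩ := by
  unfold toV
  apply Subtype.ext
  change S.f χ (Quotient.out (QuotientGroup.mk g : P ⧸ S.H χ)) = S.f χ g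
  rw [f_eq_iff]
  rw [← QuotientGroup.eq]
  exact Quotient.out_eq _

include hψ hc1 hc0 hc in
lemma toV_bij : Function.Bijective (S.toV χ) := by
  constructor
  · intro x y
    refine QuotientGroup.induction_on x fun g => QuotientGroup.induction_on y fun h => ?_
    intro he
    rw [toV_mk, toV_mk, Subtype.mk.injEq, f_eq_iff] at he
    exact QuotientGroup.eq.2 he
  · rintro ⟨v, hv⟩
    obtain ⟨d, -, hd⟩ := S.f_surj χ hψ hc1 hc0 hc hv
    refine ⟨QuotientGroup.mk d, ?_⟩
    rw [toV_mk]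
    exact Subtype.ext hd

include hψ hc1 hc0 hc in
theorem index_H : ∃ k : ℕ, (S.H χ).index = 2 ^ k := by
  obtain ⟨k, hk⟩ := card_V χ
  refine ⟨k, ?_⟩
  rw [Subgroup.index, ← hk]
  exact Nat.card_congr (Equiv.ofBijective _ (S.toV_bij χ hψ hc1 hc0 hc))

include hψ hc1 hc0 hc in
/-- elements outside of the kernel have exactly one fixed point -/
theorem exists_unique_fixed (hχ : Function.Injective χ) {g : P} (hg : ψ g ≠ 1) :
    ∃! x : P ⧸ S.H χ, g • x = x := by
  classical
  have hu : ((χ (ψ g) : Bˣ) : B) - 1 ≠ 0 := by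
    intro h
    apply hg
    apply hχ
    rw [map_one]
    apply Units.ext
    rw [Units.val_one]
    linear_combination h
  -- multiplication by `χ (ψ g) - 1` on `V`
  let m : V χ → V χ := fun v => ⟨((χ (ψ g) : Bˣ) : B) * v.1 - v.1,
    sub_mem (mul_mem_V χ _ v.2) v.2⟩
  have hm : Function.Injective m := by
    intro v w h
    have h1 := congrArg Subtype.val h
    change ((χ (ψ g) : Bˣ) : B) * v.1 - v.1 = ((χ (ψ g) : Bˣ) : B) * w.1 - w.1 at h1
    have h2 : (((χ (ψ g) : Bˣ) : B) - 1) * (v.1 - w.1) = 0 := by linear_combination h1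
    have h3 := (mul_eq_zero.1 h2).resolve_left hu
    exact Subtype.ext (sub_eq_zero.1 h3)
  have hms : Function.Surjective m := Finite.surjective_of_injective hm
  have key : ∀ h : P, g • (QuotientGroup.mk h : P ⧸ S.H χ) = QuotientGroup.mk h ↔
      m ⟨S.f χ h, S.f_mem_V χ h⟩ = ⟨- S.f χ g, neg_mem (S.f_mem_V χ g)⟩ := by
    intro h
    have h1 : g • (QuotientGroup.mk h : P ⧸ S.H χ) = QuotientGroup.mk (g * h) := rfl
    rw [h1, QuotientGroup.eq, ← f_eq_iff, S.f_mul]
    constructor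
    · intro h2
      apply Subtype.ext
      change ((χ (ψ g) : Bˣ) : B) * S.f χ h - S.f χ h = - S.f χ g
      linear_combination h2
    · intro h2
      have h3 := congrArg Subtype.val h2
      change ((χ (ψ g) : Bˣ) : B) * S.f χ h - S.f χ h = - S.f χ g at h3
      linear_combination h3
  obtain ⟨v, hv⟩ := hms ⟨- S.f χ g, neg_mem (S.f_mem_V χ g)⟩
  obtain ⟨d, -, hd⟩ := S.f_surj χ hψ hc1 hc0 hc v.2
  refine ⟨QuotientGroup.mk d, ?_, ?_⟩
  · change g • (QuotientGroup.mk d : P ⧸ S.H χ) = QuotientGroup.mk d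
    rw [key]
    rw [← hv]
    congr 1
    exact Subtype.ext hd
  · intro y
    refine QuotientGroup.induction_on y fun h hy => ?_
    change g • (QuotientGroup.mk h : P ⧸ S.H χ) = QuotientGroup.mk h at hy
    rw [key, ← hv] at hy
    have h2 := congrArg Subtype.val (hm hy)
    change S.f χ h = v.1 at h2
    rw [QuotientGroup.eq, ← f_eq_iff, h2, hd]

end Sgn

end Pool.Agent.R477.TC
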