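import Mathlib
import Pool.Agent.R477.TC.Coc

/-!
# Complex embeddings of the field of algebraic numbers, and an element with prescribed signs
-/

set_option autoImplicit false
set_option linter.unusedSectionVars false

namespace Pool.Agent.R477.TC

open NumberField IntermediateField

/-- the field of algebraic numbers -/
abbrev Om : Type := AlgebraicClosure ℚ

/-- its group of automorphisms -/
abbrev GG : Type := Om ≃ₐ[ℚ] Om

instance algOm : Algebra.IsAlgebraic ℚ Om := by
  have h : (DivisionRing.toRatAlgebra : Algebra ℚ (AlgebraicClosure ℚ)) =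
      AlgebraicClosure.instAlgebra ℚ := Subsingleton.elim _ _
  change @Algebra.IsAlgebraic ℚ (AlgebraicClosure ℚ) _ _ DivisionRing.toRatAlgebra
  rw [h]
  exact AlgebraicClosure.isAlgebraic ℚ

instance closureOm : IsAlgClosure ℚ Om := ⟨inferInstance, inferInstance⟩

/-- complex conjugation for an embedding -/
lemma exists_conj (φ : Om →+* ℂ) : ∃ c : GG, ∀ x : Om, φ (c x) = (starRingEnd ℂ) (φ x) := by
  let _ : Algebra Om ℂ := φ.toAlgebra
  have : IsScalarTower ℚ Om ℂ := IsScalarTower.of_algebraMap_eq fun x => by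
    change (algebraMap ℚ ℂ) x = φ (algebraMap ℚ Om x)
    simp
  refine ⟨(Complex.conjAe.restrictScalars ℚ).restrictNormal Om, fun x => ?_⟩
  have h := AlgEquiv.restrictNormal_commutes (Complex.conjAe.restrictScalars ℚ) Om x
  exact h

/-- two embeddings differ by an automorphism -/
lemma exists_aut (φ φ' : Om →+* ℂ) : ∃ g : GG, ∀ x : Om, φ' x = φ (g x) := by
  let _ : Algebra Om ℂ := φ.toAlgebra
  have : IsScalarTower ℚ Om ℂ := IsScalarTower.of_algebraMap_eq fun x => by
    change (algebraMap ℚ ℂ) x = φ (algebraMap ℚ Om x)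
    simp
  let ϕ : Om →ₐ[ℚ] ℂ :=
    { φ' with
      commutes' := fun r => by
        change φ' (algebraMap ℚ Om r) = algebraMap ℚ ℂ r
        simp }
  refine ⟨AlgHom.restrictNormal' ϕ Om, fun x => ?_⟩
  have h := AlgHom.restrictNormal_commutes ϕ Om x
  exact h.symm

lemma mem_fix {K : IntermediateField ℚ Om} {g : GG} :
    g ∈ K.fixingSubgroup ↔ ∀ x ∈ K, g x = x := by
  rw [IntermediateField.mem_fixingSubgroup_iff]

/-- the embedding is real on the subfield -/
def RealOn (φ : Om →+* ℂ) (K : IntermediateField ℚ Om) : Prop :=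
  ∀ x ∈ K, (starRingEnd ℂ) (φ x) = φ x

lemma conj_mem_fix {φ : Om →+* ℂ} {K : IntermediateField ℚ Om} (h : RealOn φ K) {c : GG}
    (hc : ∀ x : Om, φ (c x) = (starRingEnd ℂ) (φ x)) : c ∈ K.fixingSubgroup := by
  rw [mem_fix]
  intro x hx
  apply φ.injective
  rw [hc, h x hx]

lemma conj_sq {φ : Om →+* ℂ} {c : GG}
    (hc : ∀ x : Om, φ (c x) = (starRingEnd ℂ) (φ x)) : c * c = 1 := by
  ext x
  apply φ.injective
  change φ (c (c x)) = φ x
  rw [hc, hc]
  exact Complex.conj_conj _

/-- weak approximation: an element which is close to prescribed signs -/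
lemma exists_signs (L : Type) [Field L] [NumberField L] (s : InfinitePlace L → Bool) :
    ∃ α : L, ∀ w : InfinitePlace L, w (α - (if s w then -1 else 1)) < 1 / 2 := by
  have hd := InfinitePlace.denseRange_algebraMap_pi L
  let z : (v : InfinitePlace L) → WithAbs v.1 := fun v =>
    WithAbs.toAbs v.1 (if s v then -1 else 1)
  have ho : IsOpen (Set.pi Set.univ fun v : InfinitePlace L => Metric.ball (z v) (1 / 2)) :=
    isOpen_set_pi Set.finite_univ fun v _ => Metric.isOpen_ball
  obtain ⟨α, hα⟩ := hd.exists_mem_open ho ⟨z, fun v _ => Metric.mem_ball_self (by norm_num)⟩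
  refine ⟨α, fun w => ?_⟩
  have h1 := hα w (Set.mem_univ w)
  rw [Metric.mem_ball, dist_eq_norm] at h1
  have h2 : ‖(algebraMap L ((v : InfinitePlace L) → WithAbs v.1)) α w - z w‖ =
      w (α - (if s w then -1 else 1)) := by
    have h3 : (algebraMap L ((v : InfinitePlace L) → WithAbs v.1)) α w - z w =
        WithAbs.toAbs w.1 (α - (if s w then -1 else 1)) := rfl
    rw [h3, WithAbs.norm_toAbs_eq]
    rfl
  rw [h2] at h1
  exact h1

end Pool.Agent.R477.TC
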