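import Mathlib
import Pool.Agent.R477.TC.Emb

/-!
# An element whose conjugates have exactly one negative sign above each real place
-/

set_option autoImplicit false
set_option linter.unusedSectionVars false

namespace Pool.Agent.R477.TC

open NumberField IntermediateField

/-- the field with a given open group of automorphisms -/
lemma field_of_open (H : Subgroup GG) (Q : IntermediateField ℚ Om) [FiniteDimensional ℚ Q]
    (h : Q.fixingSubgroup ≤ H) :
    ∃ F : IntermediateField ℚ Om, FiniteDimensional ℚ F ∧ F.fixingSubgroup = H := by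
  have ho : IsOpen (H : Set GG) :=
    Subgroup.isOpen_mono h (IntermediateField.fixingSubgroup_isOpen Q)
  have hc : IsClosed (H : Set GG) := Subgroup.isClosed_of_isOpen H ho
  let H' : ClosedSubgroup GG := ⟨H, hc⟩
  have h1 : (IntermediateField.fixedField H).fixingSubgroup = H :=
    InfiniteGalois.fixingSubgroup_fixedField H'
  refine ⟨fixedField H, ?_, h1⟩
  rw [← InfiniteGalois.isOpen_iff_finite, h1]
  exact ho

lemma nf (M : IntermediateField ℚ Om) [h : FiniteDimensional ℚ M] : NumberField M := by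
  refine @NumberField.mk M _ inferInstance ?_
  have h2 : (Algebra.toModule : Module ℚ M) = IntermediateField.module' M := Subsingleton.elim _ _
  rw [h2]
  exact h

/-- embeddings extend -/
lemma ext_emb (K : IntermediateField ℚ Om) (f : K →+* ℂ) :
    ∃ φ : Om →+* ℂ, ∀ x : K, φ x = f x := by
  let _ : Algebra K ℂ := f.toAlgebra
  have : Algebra.IsAlgebraic K Om := Algebra.IsAlgebraic.tower_top (K := ℚ) K
  let l : Om →ₐ[K] ℂ := IsAlgClosed.lift
  exact ⟨l, fun x => l.commutes x⟩

/-- a chosen extension of the embedding of a place -/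
noncomputable def ext (K : IntermediateField ℚ Om) (v : InfinitePlace K) : Om →+* ℂ :=
  (ext_emb K v.embedding).choose

lemma ext_spec (K : IntermediateField ℚ Om) (v : InfinitePlace K) (x : K) :
    ext K v x = v.embedding x := (ext_emb K v.embedding).choose_spec x

/-- the place of a subfield given by an embedding -/
noncomputable def pl (M : IntermediateField ℚ Om) (φ : Om →+* ℂ) : InfinitePlace M :=
  InfinitePlace.mk (φ.comp (algebraMap M Om))

lemma pl_apply (M : IntermediateField ℚ Om) (φ : Om →+* ℂ) (x : M) : pl M φ x = ‖φ x‖ := rfl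

lemma pl_eq {M : IntermediateField ℚ Om} {φ φ' : Om →+* ℂ} (h : pl M φ = pl M φ') :
    (∀ x ∈ M, φ x = φ' x) ∨ (∀ x ∈ M, (starRingEnd ℂ) (φ x) = φ' x) := by
  unfold pl at h
  rw [InfinitePlace.mk_eq_iff] at h
  rcases h with h | h
  · left
    intro x hx
    exact RingHom.congr_fun h ⟨x, hx⟩
  · right
    intro x hx
    exact RingHom.congr_fun h ⟨x, hx⟩

lemma pl_congr {M : IntermediateField ℚ Om} {φ φ' : Om →+* ℂ} (h : ∀ x ∈ M, φ x = φ' x) :
    pl M φ = pl M φ' := by
  unfold pl
  congr 1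
  ext x
  exact h x x.2

lemma pl_ext (K : IntermediateField ℚ Om) (v : InfinitePlace K) : pl K (ext K v) = v := by
  have h : (ext K v).comp (algebraMap K Om) = v.embedding := by
    ext x
    exact ext_spec K v x
  unfold pl
  rw [h, InfinitePlace.mk_embedding]

/-- if the embedding is real on `K`, it agrees on `K` with every embedding of the same place -/
lemma eq_on_of_real {K : IntermediateField ℚ Om} {φ φ' : Om →+* ℂ} (hr : RealOn φ K)
    (h : pl K φ = pl K φ') : ∀ x ∈ K, φ x = φ' x := by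
  rcases pl_eq h with h | h
  · exact h
  · intro x hx
    rw [← h x hx, hr x hx]

section

variable (K M : IntermediateField ℚ Om) [FiniteDimensional ℚ M] (hKM : K ≤ M)
  (ψ : K.fixingSubgroup →* ℂˣ)
  (hM : ∀ g : K.fixingSubgroup, ψ g = 1 ↔ (g : GG) ∈ M.fixingSubgroup)
  (m : ℕ) (hm : Odd m) (hψ : ∀ g, ψ g ^ m = 1)

include hm hψ in
lemma psi_conj {c : K.fixingSubgroup} (hc : (c : GG) * c = 1) : ψ c = 1 := by
  have h1 : c * c = 1 := Subtype.ext hc
  have h2 : ψ c ^ 2 = 1 := by rw [pow_two, ← map_mul, h1, map_one]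
  obtain ⟨k, hk⟩ := hm
  have h3 := hψ c
  rw [hk, pow_succ, pow_mul, h2, one_pow, one_mul] at h3
  exact h3

include hM in
lemma psi_eq {g h : K.fixingSubgroup} : ψ g = ψ h ↔ (g : GG)⁻¹ * h ∈ M.fixingSubgroup := by
  have h1 := hM (g⁻¹ * h)
  rw [map_mul, map_inv, inv_mul_eq_one] at h1
  exact h1

include hM in
lemma act_eq {g h : K.fixingSubgroup} (hgh : ψ g = ψ h) {x : Om} (hx : x ∈ M) :
    (g : GG) x = (h : GG) x := by
  have h1 := (mem_fix.1 ((psi_eq K M ψ hM).1 hgh)) x hx
  have h2 : (g : GG) (((g : GG)⁻¹ * (h : GG)) x) = (h : GG) x := by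
    rw [← AlgEquiv.mul_apply, mul_inv_cancel_left]
  rw [h1] at h2
  exact h2

include hKM hM in
lemma act_mem (g : K.fixingSubgroup) {x : Om} (hx : x ∈ M) : (g : GG) x ∈ M := by
  rw [← InfiniteGalois.fixedField_fixingSubgroup M, IntermediateField.mem_fixedField_iff]
  intro n hn
  have hnK : n ∈ K.fixingSubgroup := IntermediateField.fixingSubgroup_le hKM hn
  have h1 : ψ (g⁻¹ * ⟨n, hnK⟩ * g) = 1 := by
    rw [map_mul, map_mul, (hM ⟨n, hnK⟩).2 hn, mul_one, map_inv, inv_mul_cancel]
  have h2 := (mem_fix.1 ((hM _).1 h1)) x hx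
  have h3 : (g : GG) (((g⁻¹ * ⟨n, hnK⟩ * g : K.fixingSubgroup) : GG) x) = n ((g : GG) x) := by
    rw [← AlgEquiv.mul_apply, ← AlgEquiv.mul_apply]
    congr 1
    simp [mul_assoc]
  rw [h2] at h3
  exact h3.symm

/-- the composition of an embedding with an automorphism -/
noncomputable def comp (φ : Om →+* ℂ) (g : GG) : Om →+* ℂ := φ.comp (g : Om →+* Om)

lemma comp_apply (φ : Om →+* ℂ) (g : GG) (x : Om) : comp φ g x = φ (g x) := rfl

include hKM hM hm hψ in
/-- the element `α` -/
theorem exists_alpha : ∃ α ∈ M, (∀ φ : Om →+* ℂ, RealOn φ K → ∃ g₀ : K.fixingSubgroup,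
    ∀ g : K.fixingSubgroup, (ψ g = ψ g₀ → (φ ((g : GG) α)).re < 0) ∧
      (ψ g ≠ ψ g₀ → 0 < (φ ((g : GG) α)).re)) := by
  classical
  have : NumberField M := nf M
  let s : InfinitePlace M → Bool := fun w => decide (∃ v : InfinitePlace K, w = pl M (ext K v))
  obtain ⟨α, hα⟩ := exists_signs M s
  have hneg : ∀ φ : Om →+* ℂ, s (pl M φ) = true → (φ α).re < 0 := by
    intro φ hs
    have h1 := hα (pl M φ)
    rw [hs] at h1
    rw [pl_apply] at h1
    have h2 := Complex.abs_re_le_norm (φ ((α - (if true = true then -1 else 1) : M) : Om))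
    have h3 : φ ((α - (if true = true then -1 else 1) : M) : Om) = φ α + 1 := by
      simp
    rw [h3] at h1 h2
    have h4 := abs_lt.1 (lt_of_le_of_lt h2 h1)
    simp at h4
    linarith [h4.2]
  have hpos : ∀ φ : Om →+* ℂ, s (pl M φ) = false → 0 < (φ α).re := by
    intro φ hs
    have h1 := hα (pl M φ)
    rw [hs] at h1
    rw [pl_apply] at h1
    have h2 := Complex.abs_re_le_norm (φ ((α - (if false = true then -1 else 1) : M) : Om))
    have h3 : φ ((α - (if false = true then -1 else 1) : M) : Om) = φ α - 1 := by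
      simp
    rw [h3] at h1 h2
    have h4 := abs_lt.1 (lt_of_le_of_lt h2 h1)
    simp at h4
    linarith [h4.1]
  refine ⟨α, α.2, fun φ hφ => ?_⟩
  obtain ⟨c, hc⟩ := exists_conj φ
  have hcK := conj_mem_fix hφ hc
  have hψc : ψ ⟨c, hcK⟩ = 1 := psi_conj K ψ m hm hψ (conj_sq hc)
  obtain ⟨g', hg'⟩ := exists_aut φ (ext K (pl K φ))
  have hag : ∀ x ∈ K, φ x = ext K (pl K φ) x := eq_on_of_real hφ (pl_ext K _).symm
  have hg'K : g' ∈ K.fixingSubgroup := by
    rw [mem_fix]
    intro x hx
    apply φ.injective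
    rw [← hg', hag x hx]
  refine ⟨⟨g', hg'K⟩, fun g => ⟨fun h => ?_, fun h => ?_⟩⟩
  · have h1 : φ ((g : GG) (α : Om)) = ext K (pl K φ) α := by
      rw [hg', act_eq K M ψ hM h α.2]
    rw [h1]
    apply hneg
    exact decide_eq_true ⟨_, rfl⟩
  · rw [← comp_apply]
    apply hpos
    by_contra hs
    rw [Bool.not_eq_false] at hs
    obtain ⟨v, hv⟩ := of_decide_eq_true hs
    -- the place `v` is the place of `φ`
    have hgK : ∀ x ∈ K, comp φ (g : GG) x = φ x := fun x hx => by
      rw [comp_apply, mem_fix.1 g.2 x hx]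
    have hvφ : v = pl K φ := by
      rw [← pl_ext K v]
      rcases pl_eq hv with h1 | h1
      · refine pl_congr fun x hx => ?_
        rw [← h1 x (hKM hx), hgK x hx]
      · refine pl_congr fun x hx => ?_
        rw [← h1 x (hKM hx), hgK x hx, hφ x hx]
    rw [hvφ] at hv
    apply h
    rcases pl_eq hv with h1 | h1
    · rw [eq_comm, psi_eq K M ψ hM, mem_fix]
      intro x hx
      have h2 := h1 x hx
      rw [comp_apply, hg'] at h2
      have h3 := φ.injective h2
      change ((g' : GG)⁻¹ * (g : GG)) x = x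
      rw [AlgEquiv.mul_apply, h3, ← AlgEquiv.mul_apply, inv_mul_cancel, AlgEquiv.one_apply]
    · have h4 : ψ (⟨c, hcK⟩ * g) = ψ ⟨g', hg'K⟩ := by
        rw [psi_eq K M ψ hM, mem_fix]
        intro x hx
        have h2 := h1 x hx
        rw [comp_apply, hg', ← hc] at h2
        have h3 := φ.injective h2
        change ((c * (g : GG))⁻¹ * g') x = x
        rw [AlgEquiv.mul_apply, ← h3]
        have h5 : ((c * (g : GG))⁻¹) ((c * (g : GG)) x) = x := by
          rw [← AlgEquiv.mul_apply, inv_mul_cancel, AlgEquiv.one_apply]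
        exact h5
      rw [← h4, map_mul, hψc, one_mul]

end

end Pool.Agent.R477.TC
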