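import Mathlib
import Pool.Agent.R477.TC.Alpha

/-!
# The cocycle of signs of the square roots of the conjugates, and the totally complex field
-/

set_option autoImplicit false
set_option linter.unusedSectionVars false

namespace Pool.Agent.R477.TC

open NumberField IntermediateField

/-- a sign -/
noncomputable def sg (e : ZMod 2) : Om := if e = 0 then 1 else -1

lemma zmod2 (e : ZMod 2) : e = 0 ∨ e = 1 := by revert e; decide

lemma sg_zero : sg 0 = 1 := by simp [sg]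

lemma sg_one : sg 1 = -1 := by simp [sg]

lemma sg_add (e e' : ZMod 2) : sg (e + e') = sg e * sg e' := by
  have h : (1 : ZMod 2) + 1 = 0 := by decide
  rcases zmod2 e with rfl | rfl <;> rcases zmod2 e' with rfl | rfl
  · simp [sg_zero]
  · simp [sg_zero, sg_one]
  · simp [sg_zero, sg_one]
  · rw [h]; simp [sg_zero, sg_one]

lemma sg_inj {e e' : ZMod 2} {a : Om} (ha : a ≠ 0) (h : sg e * a = sg e' * a) : e = e' := by
  have h1 := mul_right_cancel₀ ha h
  rcases zmod2 e with rfl | rfl <;> rcases zmod2 e' with rfl | rfl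
  · rfl
  · rw [sg_zero, sg_one] at h1
    exact absurd h1 (by norm_num)
  · rw [sg_zero, sg_one] at h1
    exact absurd h1 (by norm_num)
  · rfl

lemma map_sg (g : GG) (e : ZMod 2) : g (sg e) = sg e := by
  rcases zmod2 e with rfl | rfl
  · rw [sg_zero, map_one]
  · rw [sg_one, map_neg, map_one]

lemma sg_of_sq {a b : Om} (h : a ^ 2 = b ^ 2) : ∃ e, a = sg e * b := by
  rcases sq_eq_sq_iff_eq_or_eq_neg.1 h with h | h
  · exact ⟨0, by rw [sg_zero, one_mul, h]⟩
  · exact ⟨1, by rw [sg_one, h]; ring⟩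

section

variable (K M : IntermediateField ℚ Om) [FiniteDimensional ℚ M] (hKM : K ≤ M)
  (ψ : K.fixingSubgroup →* ℂˣ)
  (hM : ∀ g : K.fixingSubgroup, ψ g = 1 ↔ (g : GG) ∈ M.fixingSubgroup)
  (m : ℕ) (hm : Odd m) (hψ : ∀ g, ψ g ^ m = 1)

/-- representatives -/
noncomputable def rep (σ : ψ.range) : K.fixingSubgroup := (ψ.rangeRestrict_surjective σ).choose

lemma rep_spec (σ : ψ.range) : ψ.rangeRestrict (rep K ψ σ) = σ :=
  (ψ.rangeRestrict_surjective σ).choose_spec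

lemma psi_rep (σ : ψ.range) : ψ (rep K ψ σ) = (σ : ℂˣ) := by
  have h := congrArg Subtype.val (rep_spec K ψ σ)
  exact h

/-- the square roots of the conjugates -/
noncomputable def rt (α : Om) (σ : ψ.range) : Om :=
  (IsAlgClosed.exists_pow_nat_eq ((rep K ψ σ : GG) α) (n := 2) (by norm_num)).choose

lemma rt_sq (α : Om) (σ : ψ.range) : rt K ψ α σ ^ 2 = (rep K ψ σ : GG) α :=
  (IsAlgClosed.exists_pow_nat_eq ((rep K ψ σ : GG) α) (n := 2) (by norm_num)).choose_spec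

variable {α : Om} (hα : α ∈ M)

include hM hα in
lemma act_rep (g : K.fixingSubgroup) (σ : ψ.range) :
    (g : GG) ((rep K ψ ((ψ.rangeRestrict g)⁻¹ * σ) : GG) α) = (rep K ψ σ : GG) α := by
  have h1 : ψ (g * rep K ψ ((ψ.rangeRestrict g)⁻¹ * σ)) = ψ (rep K ψ σ) := by
    rw [map_mul, psi_rep, psi_rep]
    simp
  exact act_eq K M ψ hM h1 hα

include hM hα in
lemma exists_eps (g : K.fixingSubgroup) (σ : ψ.range) :
    ∃ e, (g : GG) (rt K ψ α ((ψ.rangeRestrict g)⁻¹ * σ)) = sg e * rt K ψ α σ := by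
  apply sg_of_sq
  rw [← map_pow, rt_sq, rt_sq]
  exact act_rep K M ψ hM hα g σ

/-- the cocycle of signs -/
noncomputable def sgn (hα0 : α ≠ 0) : Sgn ψ.rangeRestrict where
  ε g σ := (exists_eps K M ψ hM hα g σ).choose
  mul := by
    intro g h σ
    have h0 : rt K ψ α σ ≠ 0 := by
      intro h1
      have h2 := rt_sq K ψ α σ
      rw [h1] at h2
      have h3 : (rep K ψ σ : GG) α = 0 := by rw [← h2]; ring
      exact hα0 ((map_eq_zero_iff _ (AlgEquiv.injective _)).1 h3)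
    apply sg_inj h0
    rw [← (exists_eps K M ψ hM hα (g * h) σ).choose_spec, sg_add]
    have h1 : (ψ.rangeRestrict (g * h))⁻¹ * σ =
        (ψ.rangeRestrict h)⁻¹ * ((ψ.rangeRestrict g)⁻¹ * σ) := by
      rw [map_mul, mul_inv_rev, mul_assoc]
    have h2 := (exists_eps K M ψ hM hα h ((ψ.rangeRestrict g)⁻¹ * σ)).choose_spec
    have h3 := (exists_eps K M ψ hM hα g σ).choose_spec
    have h5 := congrArg (fun y => (g : GG) y) h2
    rw [h1]
    refine h5.trans ?_
    change (g : GG) (_ * _) = _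
    rw [map_mul, map_sg]
    refine (congrArg (fun y => _ * y) h3).trans ?_
    ring

lemma sgn_spec (hα0 : α ≠ 0) (g : K.fixingSubgroup) (σ : ψ.range) :
    (g : GG) (rt K ψ α ((ψ.rangeRestrict g)⁻¹ * σ)) =
      sg ((sgn K M ψ hM hα hα0).ε g σ) * rt K ψ α σ :=
  (exists_eps K M ψ hM hα g σ).choose_spec

lemma rt_ne_zero (hα0 : α ≠ 0) (σ : ψ.range) : rt K ψ α σ ≠ 0 := by
  intro h1
  have h2 := rt_sq K ψ α σ
  rw [h1] at h2
  have h3 : (rep K ψ σ : GG) α = 0 := by rw [← h2]; ring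
  exact hα0 ((map_eq_zero_iff _ (AlgEquiv.injective _)).1 h3)

/-- elements which fix everything have trivial signs -/
lemma eps_eq_zero (hα0 : α ≠ 0) {g : K.fixingSubgroup} (hg : ψ g = 1)
    (h : ∀ σ, (g : GG) (rt K ψ α σ) = rt K ψ α σ) (σ : ψ.range) :
    (sgn K M ψ hM hα hα0).ε g σ = 0 := by
  have h1 := sgn_spec K M ψ hM hα hα0 g σ
  have h2 : ψ.rangeRestrict g = 1 := Subtype.ext hg
  rw [h2, inv_one, one_mul, h σ] at h1
  apply sg_inj (rt_ne_zero K ψ hα0 σ)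
  rw [← h1, sg_zero, one_mul]

include hKM hm hψ in
/-- the signs of complex conjugation -/
lemma eps_conj (hα0 : α ≠ 0) {φ : Om →+* ℂ} (hφ : RealOn φ K) {c : GG}
    (hc : ∀ x : Om, φ (c x) = (starRingEnd ℂ) (φ x)) (σ : ψ.range) :
    ((φ ((rep K ψ σ : GG) α)).re < 0 → (sgn K M ψ hM hα hα0).ε ⟨c, conj_mem_fix hφ hc⟩ σ = 1) ∧
    (0 < (φ ((rep K ψ σ : GG) α)).re → (sgn K M ψ hM hα hα0).ε ⟨c, conj_mem_fix hφ hc⟩ σ = 0) := by
  have hψc : ψ ⟨c, conj_mem_fix hφ hc⟩ = 1 := psi_conj K ψ m hm hψ (conj_sq hc)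
  have h1 := sgn_spec K M ψ hM hα hα0 ⟨c, conj_mem_fix hφ hc⟩ σ
  have h2 : ψ.rangeRestrict ⟨c, conj_mem_fix hφ hc⟩ = 1 := Subtype.ext hψc
  rw [h2, inv_one, one_mul] at h1
  change c (rt K ψ α σ) = _ at h1
  set e := (sgn K M ψ hM hα hα0).ε ⟨c, conj_mem_fix hφ hc⟩ σ with he
  have h3 : (starRingEnd ℂ) (φ (rt K ψ α σ)) = φ (sg e * rt K ψ α σ) := by rw [← hc, h1]
  have h4 : φ (rt K ψ α σ) ^ 2 = φ ((rep K ψ σ : GG) α) := by rw [← map_pow, rt_sq]
  set z := φ (rt K ψ α σ) with hz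
  rw [← h4]
  have hre : (z ^ 2).re = z.re ^ 2 - z.im ^ 2 := by
    rw [pow_two, Complex.mul_re]; ring
  rw [hre]
  rcases zmod2 e with h0 | h0
  · rw [h0] at h3 ⊢
    rw [sg_zero, one_mul, ← hz, Complex.conj_eq_iff_im] at h3
    rw [h3]
    refine ⟨fun h => ?_, fun _ => rfl⟩
    nlinarith [sq_nonneg z.re]
  · rw [h0] at h3 ⊢
    rw [sg_one, neg_one_mul, map_neg, ← hz] at h3
    have h5 : z.re = 0 := by
      have h6 := congrArg Complex.re h3
      rw [Complex.conj_re, Complex.neg_re] at h6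
      linarith
    rw [h5]
    refine ⟨fun _ => rfl, fun h => ?_⟩
    nlinarith [sq_nonneg z.im]

end

end Pool.Agent.R477.TC
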