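import Mathlib
import Pool.Agent.R477.TC.Roots

/-!
# The totally complex extension attached to a linear character of odd order
-/

set_option autoImplicit false
set_option linter.unusedSectionVars false

namespace Pool.Agent.R477.TC

open NumberField IntermediateField

lemma le_of_fix {K M : IntermediateField ℚ Om} (h : M.fixingSubgroup ≤ K.fixingSubgroup) :
    K ≤ M := by
  rw [← InfiniteGalois.fixedField_fixingSubgroup K, ← InfiniteGalois.fixedField_fixingSubgroup M]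
  exact IntermediateField.fixedField_le h

/-- a finite group of odd order units embeds into the units of a field of characteristic two -/
lemma exists_chi (Γ : Subgroup ℂˣ) (m : ℕ) (hm : Odd m) (h : ∀ x ∈ Γ, x ^ m = 1) :
    Finite Γ ∧ ∃ χ : Γ →* (AlgebraicClosure (ZMod 2))ˣ, Function.Injective χ := by
  have hm0 : m ≠ 0 := by
    rintro rfl
    exact absurd hm (by decide)
  have : NeZero m := ⟨hm0⟩
  have hfin : Finite Γ := by
    have hle : Γ ≤ rootsOfUnity m ℂ := fun x hx => by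
      rw [mem_rootsOfUnity]
      exact h x hx
    exact Finite.of_injective (Subgroup.inclusion hle) (Subgroup.inclusion_injective hle)
  refine ⟨hfin, ?_⟩
  have hcyc : IsCyclic Γ := inferInstance
  set n := Nat.card Γ with hn
  have hn0 : n ≠ 0 := Nat.card_pos.ne'
  have hnm : n ∣ m := by
    obtain ⟨γ, hγ⟩ := hcyc.exists_generator
    rw [hn, ← orderOf_eq_card_of_forall_mem_zpowers hγ]
    apply orderOf_dvd_of_pow_eq_one
    exact Subtype.ext (h γ γ.2)
  have hnodd : Odd n := Odd.of_dvd_nat hm hnm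
  have : NeZero n := ⟨hn0⟩
  have : NeZero (n : AlgebraicClosure (ZMod 2)) := by
    refine ⟨fun h0 => ?_⟩
    have h1 := (CharP.cast_eq_zero_iff (AlgebraicClosure (ZMod 2)) 2 n).1 h0
    exact (Nat.not_even_iff_odd.2 hnodd) (even_iff_two_dvd.2 h1)
  have hcard : Nat.card Γ = Nat.card (rootsOfUnity n (AlgebraicClosure (ZMod 2))) := by
    rw [HasEnoughRootsOfUnity.natCard_rootsOfUnity]
  let e := mulEquivOfCyclicCardEq hcard
  refine ⟨(rootsOfUnity n (AlgebraicClosure (ZMod 2))).subtype.comp e.toMonoidHom, ?_⟩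
  intro x y hxy
  exact e.injective (Subtype.ext hxy)

theorem exists_field_real (K : IntermediateField ℚ Om) [FiniteDimensional ℚ K]
    (ψ : K.fixingSubgroup →* ℂˣ) (L : IntermediateField ℚ Om) [FiniteDimensional ℚ L]
    (hL : ∀ g : K.fixingSubgroup, (g : GG) ∈ L.fixingSubgroup → ψ g = 1) (m : ℕ) (hm : Odd m)
    (hψ : ∀ g, ψ g ^ m = 1) (φ₀ : Om →+* ℂ) (hφ₀ : RealOn φ₀ K) :
    ∃ F : IntermediateField ℚ Om, FiniteDimensional ℚ F ∧ K ≤ F ∧
      (∃ k, (F.fixingSubgroup.subgroupOf K.fixingSubgroup).index = 2 ^ k) ∧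
      (∀ φ, ¬ RealOn φ F) ∧
      ∀ g : K.fixingSubgroup, ψ g ≠ 1 →
        ∃! x : K.fixingSubgroup ⧸ (F.fixingSubgroup.subgroupOf K.fixingSubgroup), g • x = x := by
  classical
  -- the field cut out by `ψ`
  obtain ⟨M, hMfin, hMN⟩ := field_of_open (ψ.ker.map K.fixingSubgroup.subtype) (K ⊔ L) (by
    intro g hg
    rw [IntermediateField.fixingSubgroup_sup] at hg
    exact ⟨⟨g, hg.1⟩, hL ⟨g, hg.1⟩ hg.2, rfl⟩)
  have hM : ∀ g : K.fixingSubgroup, ψ g = 1 ↔ (g : GG) ∈ M.fixingSubgroup := by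
    intro g
    rw [hMN]
    constructor
    · intro h
      exact ⟨g, h, rfl⟩
    · rintro ⟨g', hg', he⟩
      have h1 : g' = g := Subtype.ext he
      rw [← h1]
      exact hg'
  have hKM : K ≤ M := by
    apply le_of_fix
    rw [hMN]
    rintro _ ⟨g, -, rfl⟩
    exact g.2
  obtain ⟨α, hα, hαφ⟩ := exists_alpha K M hKM ψ hM m hm hψ
  have hα0 : α ≠ 0 := by
    rintro rfl
    obtain ⟨g₀, hg₀⟩ := hαφ φ₀ hφ₀
    have h1 := (hg₀ g₀).1 rfl
    rw [map_zero, map_zero, Complex.zero_re] at h1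
    exact lt_irrefl _ h1
  obtain ⟨hΓ, χ, hχ⟩ := exists_chi ψ.range m hm (by rintro _ ⟨g, rfl⟩; exact hψ g)
  have : Fintype ψ.range := Fintype.ofFinite _
  set S := sgn K M ψ hM hα hα0 with hS
  -- the flips
  have hflip : ∀ φ : Om →+* ℂ, ∀ hφ : RealOn φ K, ∀ c : GG,
      ∀ hc : (∀ x : Om, φ (c x) = (starRingEnd ℂ) (φ x)), ∃ σ : ψ.range,
        S.ε ⟨c, conj_mem_fix hφ hc⟩ σ = 1 ∧
          ∀ τ, τ ≠ σ → S.ε ⟨c, conj_mem_fix hφ hc⟩ τ = 0 := by
    intro φ hφ c hc
    obtain ⟨g₀, hg₀⟩ := hαφ φ hφ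
    refine ⟨ψ.rangeRestrict g₀, ?_, fun τ hτ => ?_⟩
    · apply (eps_conj K M hKM ψ hM m hm hψ hα hα0 hφ hc _).1
      apply (hg₀ _).1
      rw [psi_rep]
      rfl
    · apply (eps_conj K M hKM ψ hM m hm hψ hα hα0 hφ hc _).2
      apply (hg₀ _).2
      rw [psi_rep]
      intro h
      exact hτ (Subtype.ext h)
  obtain ⟨c₀, hc₀⟩ := exists_conj φ₀
  obtain ⟨σ₀, hσ₀, hσ₀'⟩ := hflip φ₀ hφ₀ c₀ hc₀
  have hc1 : ψ.rangeRestrict ⟨c₀, conj_mem_fix hφ₀ hc₀⟩ = 1 :=
    Subtype.ext (psi_conj K ψ m hm hψ (conj_sq hc₀))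
  -- the field
  let Q : IntermediateField ℚ Om := M ⊔ IntermediateField.adjoin ℚ (Set.range (rt K ψ α))
  have hQ : FiniteDimensional ℚ Q := by
    have h1 : FiniteDimensional ℚ (IntermediateField.adjoin ℚ (Set.range (rt K ψ α))) :=
      IntermediateField.finiteDimensional_adjoin fun x _ =>
        (Algebra.IsAlgebraic.isAlgebraic x).isIntegral
    exact IntermediateField.finiteDimensional_sup _ _
  obtain ⟨F, hFfin, hFH⟩ := field_of_open ((S.H χ).map K.fixingSubgroup.subtype) Q (by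
    intro g hg
    rw [IntermediateField.fixingSubgroup_sup] at hg
    have hgK : g ∈ K.fixingSubgroup := IntermediateField.fixingSubgroup_le hKM hg.1
    refine ⟨⟨g, hgK⟩, ?_, rfl⟩
    change S.f χ ⟨g, hgK⟩ = 0
    unfold Sgn.f
    refine Finset.sum_eq_zero fun σ _ => ?_
    have h1 := eps_eq_zero K M ψ hM hα hα0 (g := ⟨g, hgK⟩) ((hM _).2 hg.1) (fun τ =>
      mem_fix.1 hg.2 _ (IntermediateField.subset_adjoin ℚ _ ⟨τ, rfl⟩)) σ
    rw [hS, h1, zero_smul])
  have hsub : F.fixingSubgroup.subgroupOf K.fixingSubgroup = S.H χ := by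
    rw [hFH, Subgroup.subgroupOf]
    exact Subgroup.comap_map_eq_self_of_injective (Subgroup.subtype_injective _) _
  have hKF : K ≤ F := by
    apply le_of_fix
    rw [hFH]
    rintro _ ⟨g, -, rfl⟩
    exact g.2
  refine ⟨F, hFfin, hKF, ?_, ?_, ?_⟩
  · rw [hsub]
    exact S.index_H χ ψ.rangeRestrict_surjective hc1 hσ₀ hσ₀'
  · intro φ hφF
    have hφ : RealOn φ K := fun x hx => hφF x (hKF hx)
    obtain ⟨c, hc⟩ := exists_conj φ
    obtain ⟨σ, hσ, hσ'⟩ := hflip φ hφ c hc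
    apply S.flip_not_mem χ hσ hσ'
    rw [← hsub]
    exact conj_mem_fix hφF hc
  · rw [hsub]
    intro g hg
    exact S.exists_unique_fixed χ ψ.rangeRestrict_surjective hc1 hσ₀ hσ₀' hχ (fun h =>
      hg (congrArg Subtype.val h))

end Pool.Agent.R477.TC
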