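import Mathlib
import Pool.Agent.R477.TC.Field

/-!
# Linear Artin characters, their inductions, and invariants which satisfy the Artin formalism

Number fields are the finite subfields of the field `Om` of algebraic numbers, the absolute Galois
group of `K` is `K.fixingSubgroup`.
-/

set_option autoImplicit false
set_option linter.unusedSectionVars false

namespace Pool.Agent.R477.TC

open NumberField IntermediateField

/-- A linear Artin character of `K`: a homomorphism from the absolute Galois group of `K` to `ℂˣ`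
which is trivial on the absolute Galois group of a number field. -/
@[ext] structure LinChar (K : IntermediateField ℚ Om) where
  toHom : K.fixingSubgroup →* ℂˣ
  cont : ∃ L : IntermediateField ℚ Om, FiniteDimensional ℚ L ∧
    ∀ g : K.fixingSubgroup, (g : GG) ∈ L.fixingSubgroup → toHom g = 1

namespace LinChar

variable {K : IntermediateField ℚ Om}

/-- the trivial character -/
noncomputable instance : One (LinChar K) := ⟨⟨1, ⊥, inferInstance, fun _ _ => rfl⟩⟩

/-- products of characters -/
noncomputable instance : Mul (LinChar K) := ⟨fun ψ θ => ⟨ψ.toHom * θ.toHom, by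
  obtain ⟨L, hL, h⟩ := ψ.cont
  obtain ⟨L', hL', h'⟩ := θ.cont
  refine ⟨L ⊔ L', IntermediateField.finiteDimensional_sup _ _, fun g hg => ?_⟩
  rw [IntermediateField.fixingSubgroup_sup] at hg
  rw [MonoidHom.mul_apply, h g hg.1, h' g hg.2, one_mul]⟩⟩

/-- powers of characters -/
noncomputable instance : Pow (LinChar K) ℤ := ⟨fun ψ a => ⟨(zpowGroupHom a).comp ψ.toHom, by
  obtain ⟨L, hL, h⟩ := ψ.cont
  refine ⟨L, hL, fun g hg => ?_⟩
  rw [MonoidHom.comp_apply, h g hg, map_one]⟩⟩

noncomputable instance : CoeFun (LinChar K) (fun _ => K.fixingSubgroup → ℂ) :=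
  ⟨fun ψ g => ((ψ.toHom g : ℂˣ) : ℂ)⟩

/-- the restriction of a character of `K` to a larger field `F` -/
noncomputable def res {F : IntermediateField ℚ Om} (h : K ≤ F) (ψ : LinChar K) : LinChar F :=
  ⟨ψ.toHom.comp (Subgroup.inclusion (IntermediateField.fixingSubgroup_le h)), by
    obtain ⟨L, hL, h'⟩ := ψ.cont
    exact ⟨L, hL, fun g hg => h' _ hg⟩⟩

end LinChar

/-- the character of `K` induced by the character `ψ` of `F`: the sum of the values
`ψ (x⁻¹ g x)` over the cosets `x` of `G_F` in `G_K` such that `x⁻¹ g x` is in `G_F` -/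
noncomputable def ind (K F : IntermediateField ℚ Om) (ψ : LinChar F) (g : K.fixingSubgroup) : ℂ :=
  open Classical in
  ∑ᶠ x : K.fixingSubgroup ⧸ (F.fixingSubgroup.subgroupOf K.fixingSubgroup),
    if h : ((x.out⁻¹ * g * x.out : K.fixingSubgroup) : GG) ∈ F.fixingSubgroup then
      ψ ⟨((x.out⁻¹ * g * x.out : K.fixingSubgroup) : GG), h⟩ else 0

/-- An invariant of linear Artin characters of number fields, with values in an abelian group, which
satisfies the Artin formalism: every relation `∑ e_i Ind_{F_i}^K ψ_i = 0` between induced characters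
of a number field `K` gives the relation `∏ u(F_i, ψ_i)^{e_i} = 1`. -/
structure ArtinInvariant (X : Type) [CommGroup X] where
  u : (K : IntermediateField ℚ Om) → LinChar K → X
  formal : ∀ (K : IntermediateField ℚ Om), FiniteDimensional ℚ K →
    ∀ (n : ℕ) (T : Fin n → (F : IntermediateField ℚ Om) × LinChar F) (e : Fin n → ℤ),
      (∀ i, K ≤ (T i).1 ∧ FiniteDimensional ℚ (T i).1) →
      (∀ g : K.fixingSubgroup, ∑ i, (e i : ℂ) * ind K (T i).1 (T i).2 g = 0) →
      ∏ i, u (T i).1 (T i).2 ^ e i = 1

section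

variable {K F : IntermediateField ℚ Om} (hKF : K ≤ F)

/-- the number of fixed cosets -/
noncomputable def fixNum (K F : IntermediateField ℚ Om) (g : K.fixingSubgroup) : ℕ :=
  Nat.card {x : K.fixingSubgroup ⧸ (F.fixingSubgroup.subgroupOf K.fixingSubgroup) // g • x = x}

lemma smul_eq_iff (H : Subgroup K.fixingSubgroup) (g : K.fixingSubgroup)
    (x : K.fixingSubgroup ⧸ H) : g • x = x ↔ x.out⁻¹ * g * x.out ∈ H := by
  have h1 : g • x = x ↔ (QuotientGroup.mk x.out : K.fixingSubgroup ⧸ H) =
      QuotientGroup.mk (g * x.out) := by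
    have h2 : g • x = QuotientGroup.mk (g * x.out) := by
      conv_lhs => rw [← QuotientGroup.out_eq' x]
      rfl
    rw [h2, eq_comm]
    conv_lhs => rw [← QuotientGroup.out_eq' x]
    simp
  rw [h1, QuotientGroup.eq, mul_assoc]

lemma ind_res (ψ : LinChar K) (g : K.fixingSubgroup)
    [Finite (K.fixingSubgroup ⧸ (F.fixingSubgroup.subgroupOf K.fixingSubgroup))] :
    ind K F (ψ.res hKF) g = ψ g * fixNum K F g := by
  classical
  have : Fintype (K.fixingSubgroup ⧸ (F.fixingSubgroup.subgroupOf K.fixingSubgroup)) :=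
    Fintype.ofFinite _
  unfold ind fixNum
  rw [finsum_eq_sum_of_fintype, Nat.card_eq_fintype_card, Fintype.card_subtype]
  have h1 : ∀ x : K.fixingSubgroup ⧸ (F.fixingSubgroup.subgroupOf K.fixingSubgroup),
      (if h : ((x.out⁻¹ * g * x.out : K.fixingSubgroup) : GG) ∈ F.fixingSubgroup then
      (ψ.res hKF) ⟨((x.out⁻¹ * g * x.out : K.fixingSubgroup) : GG), h⟩ else 0) =
      if g • x = x then ψ g else 0 := by
    intro x
    have h2 := smul_eq_iff (F.fixingSubgroup.subgroupOf K.fixingSubgroup) g x
    rw [Subgroup.mem_subgroupOf] at h2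
    by_cases h : ((x.out⁻¹ * g * x.out : K.fixingSubgroup) : GG) ∈ F.fixingSubgroup
    · rw [dif_pos h, if_pos (h2.2 h)]
      change ((ψ.toHom (x.out⁻¹ * g * x.out) : ℂˣ) : ℂ) = ((ψ.toHom g : ℂˣ) : ℂ)
      rw [map_mul, map_mul, map_inv, mul_comm, mul_inv_cancel_left]
    · rw [dif_neg h, if_neg (fun h3 => h (h2.1 h3))]
  rw [Finset.sum_congr rfl fun x _ => h1 x, ← Finset.sum_filter, Finset.sum_const, nsmul_eq_mul,
    mul_comm]

instance subsingleton_self :
    Subsingleton (K.fixingSubgroup ⧸ (K.fixingSubgroup.subgroupOf K.fixingSubgroup)) := by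
  have h1 : K.fixingSubgroup.subgroupOf K.fixingSubgroup = ⊤ := Subgroup.subgroupOf_self _
  rw [h1]
  exact QuotientGroup.subsingleton_quotient_top

lemma fixNum_self (g : K.fixingSubgroup) : fixNum K K g = 1 := by
  have h4 : Nonempty {x : K.fixingSubgroup ⧸
      (K.fixingSubgroup.subgroupOf K.fixingSubgroup) // g • x = x} :=
    ⟨⟨QuotientGroup.mk 1, Subsingleton.elim _ _⟩⟩
  exact Nat.card_eq_one_iff_unique.2 ⟨inferInstance, h4⟩

lemma res_self (ψ : LinChar K) : ψ.res (le_refl K) = ψ := rfl

lemma ind_self (ψ : LinChar K) (g : K.fixingSubgroup) : ind K K ψ g = ψ g := by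
  have h := ind_res (le_refl K) ψ g
  rw [fixNum_self, Nat.cast_one, mul_one] at h
  exact h

end

end Pool.Agent.R477.TC
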