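import Mathlib
import Pool.Agent.R477.TC.Formal

/-!
# Reduction of linear characters to totally complex base fields
-/

set_option autoImplicit false
set_option linter.unusedSectionVars false

namespace Pool.Agent.R477.TC

open NumberField IntermediateField

lemma isTotallyComplex_of {F : IntermediateField ℚ Om} (h : ∀ φ, ¬ RealOn φ F) :
    IsTotallyComplex F := by
  refine ⟨fun v => ?_⟩
  by_contra hv
  rw [InfinitePlace.not_isComplex_iff_isReal, InfinitePlace.isReal_iff] at hv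
  apply h (ext F v)
  intro x hx
  rw [show ext F v x = v.embedding ⟨x, hx⟩ from ext_spec F v ⟨x, hx⟩]
  exact RingHom.congr_fun hv ⟨x, hx⟩

lemma finrank_of_index {K F : IntermediateField ℚ Om} (h : K ≤ F) {k : ℕ}
    (hk : (F.fixingSubgroup.subgroupOf K.fixingSubgroup).index = 2 ^ k) :
    Module.finrank ℚ F = 2 ^ k * Module.finrank ℚ K := by
  rw [IntermediateField.finrank_eq_fixingSubgroup_index,
    IntermediateField.finrank_eq_fixingSubgroup_index, ← hk]
  exact (Subgroup.relIndex_mul_index (IntermediateField.fixingSubgroup_le h)).symm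

/-- the totally complex field attached to a character of odd order -/
theorem exists_field (K : IntermediateField ℚ Om) [FiniteDimensional ℚ K]
    (ψ : LinChar K) (m : ℕ) (hm : Odd m) (hψ : ∀ g, ψ.toHom g ^ m = 1) :
    ∃ (F : IntermediateField ℚ Om) (_ : K ≤ F) (k : ℕ), FiniteDimensional ℚ F ∧
      IsTotallyComplex F ∧ Module.finrank ℚ F = 2 ^ k * Module.finrank ℚ K ∧
      Finite (K.fixingSubgroup ⧸ (F.fixingSubgroup.subgroupOf K.fixingSubgroup)) ∧
      ∀ g : K.fixingSubgroup, ψ.toHom g ≠ 1 → fixNum K F g = 1 := by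
  by_cases hreal : ∃ φ, RealOn φ K
  · obtain ⟨φ₀, hφ₀⟩ := hreal
    obtain ⟨L, hLfin, hL⟩ := ψ.cont
    obtain ⟨F, hF, hKF, ⟨k, hk⟩, htc, hfix⟩ :=
      exists_field_real K ψ.toHom L hL m hm hψ φ₀ hφ₀
    refine ⟨F, hKF, k, hF, isTotallyComplex_of htc, finrank_of_index hKF hk, ?_, fun g hg => ?_⟩
    · apply Nat.finite_of_card_ne_zero
      change (F.fixingSubgroup.subgroupOf K.fixingSubgroup).index ≠ 0
      rw [hk]
      positivity
    · obtain ⟨x, hx, hx'⟩ := hfix g hg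
      unfold fixNum
      refine Nat.card_eq_one_iff_unique.2 ⟨⟨fun a b => ?_⟩, ⟨⟨x, hx⟩⟩⟩
      exact Subtype.ext ((hx' a.1 a.2).trans (hx' b.1 b.2).symm)
  · rw [not_exists] at hreal
    refine ⟨K, le_refl K, 0, inferInstance, isTotallyComplex_of hreal, by simp, inferInstance,
      fun g _ => fixNum_self g⟩

/-- the identity of characters -/
theorem main (K : IntermediateField ℚ Om) [FiniteDimensional ℚ K]
    (ψ : LinChar K) (m : ℕ) (hm : Odd m) (hψ : ∀ g, ψ.toHom g ^ m = 1) :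
    ∃ (F : IntermediateField ℚ Om) (hF : K ≤ F) (k : ℕ), FiniteDimensional ℚ F ∧
      IsTotallyComplex F ∧ Module.finrank ℚ F = 2 ^ k * Module.finrank ℚ K ∧
      (∀ (θ : LinChar K) (j : ℤ) (g : K.fixingSubgroup),
        (θ * ψ ^ j) g - θ g = ind K F ((θ * ψ ^ j).res hF) g - ind K F (θ.res hF) g) ∧
      ∀ (X : Type) [CommGroup X] (I : ArtinInvariant X) (θ : LinChar K) (j : ℤ),
        I.u K (θ * ψ ^ j) / I.u K θ = I.u F ((θ * ψ ^ j).res hF) / I.u F (θ.res hF) := by
  obtain ⟨F, hF, k, hfin, htc, hk, hfq, hfix⟩ := exists_field K ψ m hm hψ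
  have hid : ∀ (θ : LinChar K) (j : ℤ) (g : K.fixingSubgroup),
      (θ * ψ ^ j) g - θ g = ind K F ((θ * ψ ^ j).res hF) g - ind K F (θ.res hF) g := by
    intro θ j g
    rw [ind_res, ind_res]
    have h1 : (θ * ψ ^ j) g = θ g * ((ψ.toHom g ^ j : ℂˣ) : ℂ) := by
      change ((θ.toHom g * ψ.toHom g ^ j : ℂˣ) : ℂ) = _
      rw [Units.val_mul]
    rw [h1]
    by_cases h : ψ.toHom g = 1
    · rw [h, one_zpow, Units.val_one]; ring
    · rw [hfix g h]
      push_cast
      ring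
  refine ⟨F, hF, k, hfin, htc, hk, hid, fun X _ I θ j => ?_⟩
  have h := I.formal K inferInstance 4
    ![⟨K, θ * ψ ^ j⟩, ⟨K, θ⟩, ⟨F, (θ * ψ ^ j).res hF⟩, ⟨F, θ.res hF⟩] ![1, -1, -1, 1]
    (by
      intro i
      fin_cases i
      · exact ⟨le_refl K, (inferInstance : FiniteDimensional ℚ K)⟩
      · exact ⟨le_refl K, (inferInstance : FiniteDimensional ℚ K)⟩
      · exact ⟨hF, hfin⟩
      · exact ⟨hF, hfin⟩)
    (by
      intro g
      rw [Fin.sum_univ_four]
      have h1 := hid θ j g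
      rw [← ind_self (θ * ψ ^ j), ← ind_self θ] at h1
      simp only [Matrix.cons_val]
      push_cast
      linear_combination h1)
  rw [Fin.prod_univ_four] at h
  simp only [Matrix.cons_val, zpow_one, zpow_neg] at h
  rw [div_eq_div_iff_mul_eq_mul]
  have h2 : I.u K (θ * ψ ^ j) * I.u F (θ.res hF) =
      (I.u K (θ * ψ ^ j) * (I.u K θ)⁻¹ * (I.u F ((θ * ψ ^ j).res hF))⁻¹ * I.u F (θ.res hF)) *
        (I.u F ((θ * ψ ^ j).res hF) * I.u K θ) := by
    rw [mul_assoc (I.u K (θ * ψ ^ j)), mul_assoc (I.u K (θ * ψ ^ j)),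
      mul_assoc (I.u K (θ * ψ ^ j))]
    congr 1
    rw [mul_comm ((I.u K θ)⁻¹ * (I.u F ((θ * ψ ^ j).res hF))⁻¹) (I.u F (θ.res hF)), mul_assoc]
    rw [← mul_inv_rev, inv_mul_cancel, mul_one]
  rw [h2, h, one_mul]

lemma pow_one_eq {K : IntermediateField ℚ Om} (η : LinChar K) : η ^ (1 : ℤ) = η := by
  apply LinChar.ext
  ext g
  change ((η.toHom g ^ (1 : ℤ) : ℂˣ) : ℂ) = ((η.toHom g : ℂˣ) : ℂ)
  rw [zpow_one]

lemma one_mul_eq {K : IntermediateField ℚ Om} (η : LinChar K) : 1 * η = η := by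
  apply LinChar.ext
  ext g
  change ((1 * η.toHom g : ℂˣ) : ℂ) = ((η.toHom g : ℂˣ) : ℂ)
  rw [one_mul]

/-- every linear character has finite order -/
lemma exists_order (K : IntermediateField ℚ Om) [FiniteDimensional ℚ K] (ψ : LinChar K) :
    ∃ n : ℕ, n ≠ 0 ∧ ∀ g, ψ.toHom g ^ n = 1 := by
  obtain ⟨L, hLfin, hL⟩ := ψ.cont
  have hfin : FiniteDimensional ℚ (K ⊔ L : IntermediateField ℚ Om) :=
    IntermediateField.finiteDimensional_sup _ _
  have h1 : (K ⊔ L).fixingSubgroup.index ≠ 0 := by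
    rw [← IntermediateField.finrank_eq_fixingSubgroup_index]
    exact (Module.finrank_pos (R := ℚ)).ne'
  have h2 : (K ⊔ L).fixingSubgroup ≤ ψ.toHom.ker.map K.fixingSubgroup.subtype := by
    intro g hg
    rw [IntermediateField.fixingSubgroup_sup] at hg
    exact ⟨⟨g, hg.1⟩, hL ⟨g, hg.1⟩ hg.2, rfl⟩
  have h3 : (ψ.toHom.ker.map K.fixingSubgroup.subtype).index ≠ 0 :=
    fun h => h1 (Nat.eq_zero_of_zero_dvd (h ▸ Subgroup.index_dvd_of_le h2))
  have h4 : (ψ.toHom.ker.map K.fixingSubgroup.subtype).index =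
      ψ.toHom.ker.index * K.fixingSubgroup.index := Subgroup.index_map_subtype _
  have h5 : ψ.toHom.ker.index ≠ 0 := fun h => h3 (by rw [h4, h, zero_mul])
  rw [Subgroup.index_ker] at h5
  refine ⟨Nat.card ψ.toHom.range, h5, fun g => ?_⟩
  have h6 : (ψ.toHom.rangeRestrict g) ^ Nat.card ψ.toHom.range = 1 := pow_card_eq_one'
  exact congrArg Subtype.val h6

/-- the decomposition into a character of 2-power order and one of odd order -/
lemma exists_decomp (K : IntermediateField ℚ Om) [FiniteDimensional ℚ K] (ψ : LinChar K) :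
    ∃ (θ η : LinChar K) (k m : ℕ), Odd m ∧ (∀ g, θ.toHom g ^ 2 ^ k = 1) ∧
      (∀ g, η.toHom g ^ m = 1) ∧ ψ = θ * η := by
  obtain ⟨n, hn, h⟩ := exists_order K ψ
  obtain ⟨k, m, hm, rfl⟩ := Nat.exists_eq_two_pow_mul_odd hn
  have hcop : Nat.Coprime (2 ^ k) m := Nat.Coprime.pow_left k (Nat.coprime_two_left.2 hm)
  have hbez : ((2 ^ k : ℕ) : ℤ) * Nat.gcdA (2 ^ k) m + (m : ℤ) * Nat.gcdB (2 ^ k) m = 1 := by
    rw [← Nat.gcd_eq_gcd_ab, hcop, Nat.cast_one]
  refine ⟨ψ ^ ((m : ℤ) * Nat.gcdB (2 ^ k) m), ψ ^ (((2 ^ k : ℕ) : ℤ) * Nat.gcdA (2 ^ k) m), k, m,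
    hm, fun g => ?_, fun g => ?_, ?_⟩
  · change (ψ.toHom g ^ ((m : ℤ) * Nat.gcdB (2 ^ k) m)) ^ 2 ^ k = 1
    rw [← zpow_natCast, ← zpow_mul]
    have e : (m : ℤ) * Nat.gcdB (2 ^ k) m * ((2 ^ k : ℕ) : ℤ) =
        ((2 ^ k * m : ℕ) : ℤ) * Nat.gcdB (2 ^ k) m := by push_cast; ring
    rw [e, zpow_mul, zpow_natCast, h g, one_zpow]
  · change (ψ.toHom g ^ (((2 ^ k : ℕ) : ℤ) * Nat.gcdA (2 ^ k) m)) ^ m = 1
    rw [← zpow_natCast, ← zpow_mul]
    have e : ((2 ^ k : ℕ) : ℤ) * Nat.gcdA (2 ^ k) m * (m : ℤ) =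
        ((2 ^ k * m : ℕ) : ℤ) * Nat.gcdA (2 ^ k) m := by push_cast; ring
    rw [e, zpow_mul, zpow_natCast, h g, one_zpow]
  · apply LinChar.ext
    ext g
    change ((ψ.toHom g : ℂˣ) : ℂ) = ((ψ.toHom g ^ ((m : ℤ) * Nat.gcdB (2 ^ k) m) *
      ψ.toHom g ^ (((2 ^ k : ℕ) : ℤ) * Nat.gcdA (2 ^ k) m) : ℂˣ) : ℂ)
    rw [← zpow_add, add_comm, hbez, zpow_one]

/-- an invariant which is trivial on trivial characters is trivial on quadratic characters -/
lemma quadratic {X : Type} [CommGroup X] (I : ArtinInvariant X)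
    (h1 : ∀ (K : IntermediateField ℚ Om), FiniteDimensional ℚ K → I.u K 1 = 1)
    (K : IntermediateField ℚ Om) [FiniteDimensional ℚ K] (θ : LinChar K)
    (hθ : ∀ g, θ.toHom g ^ 2 = 1) : I.u K θ = 1 := by
  classical
  by_cases htriv : ∀ g, θ.toHom g = 1
  · have h2 : θ = 1 := by
      apply LinChar.ext
      ext g
      change ((θ.toHom g : ℂˣ) : ℂ) = ((1 : ℂˣ) : ℂ)
      rw [htriv g]
    rw [h2, h1 K inferInstance]
  rw [not_forall] at htriv
  obtain ⟨g₀, hg₀⟩ := htriv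
  have hval : ∀ g, θ.toHom g = 1 ∨ θ.toHom g = -1 := by
    intro g
    have h2 : ((θ.toHom g : ℂˣ) : ℂ) ^ 2 = 1 := by
      rw [← Units.val_pow_eq_pow_val, hθ g, Units.val_one]
    have h3 : ((θ.toHom g : ℂˣ) : ℂ) ^ 2 = 1 ^ 2 := by rw [h2, one_pow]
    rcases sq_eq_sq_iff_eq_or_eq_neg.1 h3 with h | h
    · exact Or.inl (Units.ext h)
    · exact Or.inr (Units.ext h)
  obtain ⟨L, hLfin, hL⟩ := θ.cont
  have hKL : FiniteDimensional ℚ (K ⊔ L : IntermediateField ℚ Om) :=
    IntermediateField.finiteDimensional_sup _ _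
  obtain ⟨E, hEfin, hE⟩ := field_of_open (θ.toHom.ker.map K.fixingSubgroup.subtype) (K ⊔ L) (by
    intro g hg
    rw [IntermediateField.fixingSubgroup_sup] at hg
    exact ⟨⟨g, hg.1⟩, hL ⟨g, hg.1⟩ hg.2, rfl⟩)
  have hKE : K ≤ E := by
    apply le_of_fix
    rw [hE]
    rintro _ ⟨g, -, rfl⟩
    exact g.2
  have hsub : E.fixingSubgroup.subgroupOf K.fixingSubgroup = θ.toHom.ker := by
    rw [hE, Subgroup.subgroupOf]
    exact Subgroup.comap_map_eq_self_of_injective (Subgroup.subtype_injective _) _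
  have hcard : Nat.card (K.fixingSubgroup ⧸ (E.fixingSubgroup.subgroupOf K.fixingSubgroup)) = 2 := by
    rw [hsub]
    change θ.toHom.ker.index = 2
    rw [Subgroup.index_ker, Nat.card_eq_two_iff]
    refine ⟨⟨1, 1, map_one _⟩, ⟨θ.toHom g₀, g₀, rfl⟩, fun h => hg₀ (congrArg Subtype.val h).symm, ?_⟩
    ext ⟨x, g, rfl⟩
    simp only [Set.mem_insert_iff, Set.mem_singleton_iff, Set.mem_univ, iff_true]
    rcases hval g with h | h
    · left
      exact Subtype.ext h
    · right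
      apply Subtype.ext
      change θ.toHom g = θ.toHom g₀
      rw [h, (hval g₀).resolve_left hg₀]
  have hfq : Finite (K.fixingSubgroup ⧸ (E.fixingSubgroup.subgroupOf K.fixingSubgroup)) :=
    Nat.finite_of_card_ne_zero (by rw [hcard]; norm_num)
  have hfix : ∀ g x, (g : K.fixingSubgroup) • x =
      (x : K.fixingSubgroup ⧸ (E.fixingSubgroup.subgroupOf K.fixingSubgroup)) ↔
        θ.toHom g = 1 := by
    intro g x
    have h0 : ∀ y : K.fixingSubgroup, y ∈ E.fixingSubgroup.subgroupOf K.fixingSubgroup ↔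
        θ.toHom y = 1 := fun y => by rw [hsub, MonoidHom.mem_ker]
    rw [smul_eq_iff, h0, map_mul, map_mul, map_inv, mul_comm, mul_inv_cancel_left]
  have h := I.formal K inferInstance 3
    ![⟨E, LinChar.res hKE 1⟩, ⟨K, 1⟩, ⟨K, θ⟩] ![1, -1, -1]
    (by
      intro i
      fin_cases i
      · exact ⟨hKE, hEfin⟩
      · exact ⟨le_refl K, (inferInstance : FiniteDimensional ℚ K)⟩
      · exact ⟨le_refl K, (inferInstance : FiniteDimensional ℚ K)⟩)
    (by
      intro g
      rw [Fin.sum_univ_three]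
      have e1 : ind K E (LinChar.res hKE 1) g = fixNum K E g := by
        rw [ind_res]
        change ((1 : ℂˣ) : ℂ) * _ = _
        rw [Units.val_one, one_mul]
      have e2 : ind K K 1 g = 1 := by
        rw [ind_self]
        exact Units.val_one
      have e3 := ind_self θ g
      have e4 : (fixNum K E g : ℂ) = 1 + θ g := by
        unfold fixNum
        rcases hval g with h | h
        · have h5 : Nat.card {x : K.fixingSubgroup ⧸
              (E.fixingSubgroup.subgroupOf K.fixingSubgroup) // g • x = x} = 2 := by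
            rw [← hcard]
            exact Nat.card_congr (Equiv.subtypeUnivEquiv fun x => (hfix g x).2 h)
          rw [h5]
          change _ = 1 + ((θ.toHom g : ℂˣ) : ℂ)
          rw [h, Units.val_one]
          norm_num
        · have h6 : IsEmpty {x : K.fixingSubgroup ⧸
              (E.fixingSubgroup.subgroupOf K.fixingSubgroup) // g • x = x} := by
            refine ⟨fun x => ?_⟩
            have h7 := (hfix g x.1).1 x.2
            rw [h] at h7
            have h8 := congrArg (fun y : ℂˣ => (y : ℂ)) h7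
            change ((-1 : ℂˣ) : ℂ) = ((1 : ℂˣ) : ℂ) at h8
            rw [Units.val_neg, Units.val_one] at h8
            norm_num at h8
          rw [Nat.card_of_isEmpty]
          change _ = 1 + ((θ.toHom g : ℂˣ) : ℂ)
          rw [h, Units.val_neg, Units.val_one]
          norm_num
      simp only [Matrix.cons_val]
      push_cast
      rw [e1, e2, e3, e4]
      ring)
  rw [Fin.prod_univ_three] at h
  simp only [Matrix.cons_val, zpow_one, zpow_neg] at h
  have e5 : I.u E (LinChar.res hKE 1) = 1 := h1 E hEfin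
  rw [e5, h1 K inferInstance, inv_one, one_mul, one_mul, inv_eq_one] at h
  exact h

/-- the reduction -/
theorem reduction {X : Type} [CommGroup X] (I : ArtinInvariant X)
    (h1 : ∀ (K : IntermediateField ℚ Om), FiniteDimensional ℚ K → I.u K 1 = 1)
    (hc : ∀ (F : IntermediateField ℚ Om), FiniteDimensional ℚ F → IsTotallyComplex F →
      ∀ ψ : LinChar F, I.u F ψ = 1)
    (h2 : ∀ (K : IntermediateField ℚ Om), FiniteDimensional ℚ K → ¬ IsTotallyComplex K →
      ∀ θ : LinChar K, (∃ k, ∀ g, θ.toHom g ^ 2 ^ k = 1) → (¬ ∀ g, θ.toHom g ^ 2 = 1) →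
        I.u K θ = 1)
    (K : IntermediateField ℚ Om) [FiniteDimensional ℚ K] (ψ : LinChar K) : I.u K ψ = 1 := by
  by_cases htc : IsTotallyComplex K
  · exact hc K inferInstance htc ψ
  obtain ⟨θ, η, k, m, hm, hθ, hη, rfl⟩ := exists_decomp K ψ
  obtain ⟨F, hF, j, hfin, hFtc, -, -, h⟩ := main K η m hm hη
  have h3 := h X I θ 1
  rw [hc F hfin hFtc, hc F hfin hFtc, div_one, pow_one_eq] at h3
  have h4 : I.u K θ = 1 := by
    by_cases hsq : ∀ g, θ.toHom g ^ 2 = 1
    · exact quadratic I h1 K θ hsq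
    · exact h2 K inferInstance htc θ ⟨k, hθ⟩ hsq
  rw [h4, div_one] at h3
  exact h3

end Pool.Agent.R477.TC
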