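import Mathlib
import Pool.Agent.R477.TC.Main

/-!
# Number fields, linear Artin characters, and invariants which satisfy the Artin formalism

Number fields are the finite subfields of the field `Om` of algebraic numbers.
-/

set_option autoImplicit false
set_option linter.unusedSectionVars false

namespace Pool.Agent.R477.TC

open IntermediateField

/-- a number field, as a subfield of the field of algebraic numbers -/
structure NumField where
  field : IntermediateField ℚ Om
  fin : FiniteDimensional ℚ field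

namespace NumField

/-- the absolute Galois group of `K` -/
def G (K : NumField) : Type := K.field.fixingSubgroup

noncomputable instance instGroupG (K : NumField) : Group K.G := K.field.fixingSubgroup.toGroup

/-- `K` is contained in `F` -/
def Le (K F : NumField) : Prop := K.field ≤ F.field

/-- the subgroup of the elements of the absolute Galois group of `K` which fix `F` -/
noncomputable def sub (K F : NumField) : Subgroup K.G :=
  F.field.fixingSubgroup.subgroupOf K.field.fixingSubgroup

/-- an element of the absolute Galois group of `K` which fixes `F` as an element of the absolute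
Galois group of `F` -/
def down {K F : NumField} (g : K.G) (h : g ∈ K.sub F) : F.G := ⟨g.1, h⟩

/-- the inclusion of the absolute Galois group of `F` in the one of `K` -/
noncomputable def up {K F : NumField} (h : K.Le F) : F.G →* K.G :=
  Subgroup.inclusion (IntermediateField.fixingSubgroup_le h)

/-- the degree over `ℚ` -/
noncomputable def deg (K : NumField) : ℕ := Module.finrank ℚ K.field

/-- all archimedean places of `K` are complex -/
def TotallyComplex (K : NumField) : Prop := NumberField.IsTotallyComplex K.field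

end NumField

/-- A linear Artin character of the number field `K`: a homomorphism from the absolute Galois group
of `K` to `ℂˣ` which is trivial on the elements which fix a certain number field. -/
@[ext] structure Chr (K : NumField) where
  hom : K.G →* ℂˣ
  cont : ∃ L : NumField, ∀ g ∈ K.sub L, hom g = 1

namespace Chr

variable {K F : NumField}

/-- the trivial character -/
noncomputable def one (K : NumField) : Chr K := ⟨1, ⟨⊥, inferInstance⟩, fun _ _ => rfl⟩

/-- the product of two characters -/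
noncomputable def mul (θ ψ : Chr K) : Chr K := ⟨θ.hom * ψ.hom, by
  obtain ⟨L, h⟩ := θ.cont
  obtain ⟨L', h'⟩ := ψ.cont
  have := L.fin
  have := L'.fin
  refine ⟨⟨L.field ⊔ L'.field, IntermediateField.finiteDimensional_sup _ _⟩, fun g hg => ?_⟩
  have hg' : (g.1 : GG) ∈ (L.field ⊔ L'.field).fixingSubgroup := hg
  rw [IntermediateField.fixingSubgroup_sup] at hg'
  rw [MonoidHom.mul_apply, h g hg'.1, h' g hg'.2, one_mul]⟩

/-- the powers of a character -/
noncomputable def pow (ψ : Chr K) (j : ℤ) : Chr K := ⟨(zpowGroupHom j).comp ψ.hom, by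
  obtain ⟨L, h⟩ := ψ.cont
  refine ⟨L, fun g hg => ?_⟩
  rw [MonoidHom.comp_apply, h g hg, map_one]⟩

/-- the restriction of a character of `K` to a larger field `F` -/
noncomputable def res (h : K.Le F) (ψ : Chr K) : Chr F :=
  ⟨ψ.hom.comp (NumField.up h), by
    obtain ⟨L, h'⟩ := ψ.cont
    exact ⟨L, fun g hg => h' _ hg⟩⟩

/-- the values of a character -/
noncomputable def val (ψ : Chr K) (g : K.G) : ℂ := ψ.hom g

/-- the `n`-th power of the character is trivial -/
def PowTrivial (ψ : Chr K) (n : ℕ) : Prop := ∀ g, ψ.hom g ^ n = 1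

open Classical in
/-- the character of `K` induced by the character `ψ` of `F`: the sum of the values
`ψ (x⁻¹ g x)` over the cosets `x` of `G_F` in `G_K` such that `x⁻¹ g x` is in `G_F` -/
noncomputable def induced (K : NumField) {F : NumField} (ψ : Chr F) (g : K.G) : ℂ :=
  ∑ᶠ x : K.G ⧸ K.sub F,
    if h : x.out⁻¹ * g * x.out ∈ K.sub F then ψ.val (NumField.down (x.out⁻¹ * g * x.out) h) else 0

end Chr

/-- An invariant of linear Artin characters of number fields, with values in an abelian group, which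
satisfies the Artin formalism: every relation `∑ e_i Ind_{F_i}^K ψ_i = 0` between characters of a
number field `K` induced by characters `ψ_i` of finite extensions `F_i` of `K` gives the relation
`∏ u(F_i, ψ_i)^{e_i} = 1`. -/
structure Invariant (X : Type) [CommGroup X] where
  u : (K : NumField) → Chr K → X
  formal : ∀ (K : NumField) (n : ℕ) (F : Fin n → NumField) (ψ : (i : Fin n) → Chr (F i))
    (e : Fin n → ℤ), (∀ i, K.Le (F i)) →
      (∀ g : K.G, ∑ i, (e i : ℂ) * (ψ i).induced K g = 0) → ∏ i, u (F i) (ψ i) ^ e i = 1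

/-- the character as a character of the underlying field -/
noncomputable def Chr.toU {K : NumField} (ψ : Chr K) : LinChar K.field :=
  ⟨ψ.hom, by
    obtain ⟨L, h⟩ := ψ.cont
    exact ⟨L.field, L.fin, fun g hg => h g hg⟩⟩

/-- the converse -/
noncomputable def ofU (K : NumField) (ψ : LinChar K.field) : Chr K :=
  ⟨ψ.toHom, by
    obtain ⟨L, hL, h⟩ := ψ.cont
    exact ⟨⟨L, hL⟩, fun g hg => h g hg⟩⟩

lemma ofU_toU {K : NumField} (ψ : Chr K) : ofU K ψ.toU = ψ := rfl

lemma induced_ofU (K F : NumField) (ψ : LinChar F.field) (g : K.G) :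
    (ofU F ψ).induced K g = ind K.field F.field ψ g := rfl

lemma induced_eq (K : NumField) {F : NumField} (ψ : Chr F) (g : K.G) :
    ψ.induced K g = ind K.field F.field ψ.toU g := rfl

/-- the underlying invariant -/
noncomputable def Invariant.toU {X : Type} [CommGroup X] (I : Invariant X) : ArtinInvariant X where
  u K ψ := open Classical in if h : FiniteDimensional ℚ K then I.u ⟨K, h⟩ (ofU ⟨K, h⟩ ψ) else 1
  formal := by
    intro K hK n T e hT hsum
    have h1 := I.formal ⟨K, hK⟩ n (fun i => ⟨(T i).1, (hT i).2⟩)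
      (fun i => ofU ⟨(T i).1, (hT i).2⟩ (T i).2) e (fun i => (hT i).1) (fun g => hsum g)
    rw [← h1]
    refine Finset.prod_congr rfl fun i _ => ?_
    rw [dif_pos (hT i).2]

lemma Invariant.toU_u {X : Type} [CommGroup X] (I : Invariant X) {K : NumField} (ψ : Chr K) :
    I.toU.u K.field ψ.toU = I.u K ψ := by
  classical
  change (if h : FiniteDimensional ℚ K.field then I.u ⟨K.field, h⟩ (ofU ⟨K.field, h⟩ ψ.toU)
    else 1) = _
  rw [dif_pos K.fin]
  rfl

lemma Chr.one_mul {K : NumField} (ψ : Chr K) : (Chr.one K).mul ψ = ψ := by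
  apply Chr.ext
  ext g
  change ((1 * ψ.hom g : ℂˣ) : ℂ) = ((ψ.hom g : ℂˣ) : ℂ)
  rw [_root_.one_mul]

/-- the identity of characters -/
theorem mainB (K : NumField) (ψ : Chr K) (m : ℕ) (hm : Odd m) (hψ : ψ.PowTrivial m) :
    ∃ (F : NumField) (h : K.Le F) (k : ℕ), F.TotallyComplex ∧ F.deg = 2 ^ k * K.deg ∧
      (∀ (θ : Chr K) (j : ℤ) (g : K.G), (θ.mul (ψ.pow j)).val g - θ.val g =
        ((θ.mul (ψ.pow j)).res h).induced K g - (θ.res h).induced K g) ∧
      ∀ (X : Type) [CommGroup X] (I : Invariant X) (θ : Chr K) (j : ℤ),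
        I.u K (θ.mul (ψ.pow j)) / I.u K θ =
          I.u F ((θ.mul (ψ.pow j)).res h) / I.u F (θ.res h) := by
  have := K.fin
  obtain ⟨F, hF, k, hfin, htc, hk, hid, hu⟩ := main K.field ψ.toU m hm hψ
  refine ⟨⟨F, hfin⟩, hF, k, htc, hk, fun θ j g => hid θ.toU j g, fun X _ I θ j => ?_⟩
  have h1 := hu X I.toU θ.toU j
  have e1 : I.toU.u K.field (θ.toU * ψ.toU ^ j) = I.u K (θ.mul (ψ.pow j)) :=
    I.toU_u (θ.mul (ψ.pow j))
  have e2 : I.toU.u F (LinChar.res hF (θ.toU * ψ.toU ^ j)) =
      I.u ⟨F, hfin⟩ ((θ.mul (ψ.pow j)).res hF) :=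
    I.toU_u (K := ⟨F, hfin⟩) ((θ.mul (ψ.pow j)).res hF)
  have e3 : I.toU.u F (LinChar.res hF θ.toU) = I.u ⟨F, hfin⟩ (θ.res hF) :=
    I.toU_u (K := ⟨F, hfin⟩) (θ.res hF)
  rw [e1, e2, e3, I.toU_u θ] at h1
  exact h1

/-- the reduction -/
theorem reductionB {X : Type} [CommGroup X] (I : Invariant X)
    (h1 : ∀ K : NumField, I.u K (Chr.one K) = 1)
    (hc : ∀ F : NumField, F.TotallyComplex → ∀ ψ : Chr F, I.u F ψ = 1)
    (h2 : ∀ K : NumField, ¬ K.TotallyComplex → ∀ θ : Chr K, (∃ k, θ.PowTrivial (2 ^ k)) →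
      ¬ θ.PowTrivial 2 → I.u K θ = 1)
    (K : NumField) (ψ : Chr K) : I.u K ψ = 1 := by
  have := K.fin
  rw [← I.toU_u ψ]
  refine reduction I.toU ?_ ?_ ?_ K.field ψ.toU
  · intro K hK
    exact (I.toU_u (K := ⟨K, hK⟩) (Chr.one ⟨K, hK⟩)).trans (h1 ⟨K, hK⟩)
  · intro F hF hFc χ
    exact (I.toU_u (K := ⟨F, hF⟩) (ofU ⟨F, hF⟩ χ)).trans (hc ⟨F, hF⟩ hFc _)
  · intro F hF hFc χ h3 h4
    exact (I.toU_u (K := ⟨F, hF⟩) (ofU ⟨F, hF⟩ χ)).trans (h2 ⟨F, hF⟩ hFc _ h3 h4)

end Pool.Agent.R477.TC
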